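import Mathlib
import Pool.Agent.H30.Bkr

namespace Pool.Agent.Results.MP_3c3b39_pr.Strict

open Set Pool.Agent.H30.Bkr

/-- The simultaneous `r`-fold BKR product of `A 0, …, A (r-1)`. -/
def sim {ι S : Type} (r : ℕ) (A : ℕ → Set (ι → S)) : Set (ι → S) :=
  {x | ∃ K : Fin r → Set ι, (∀ i j, i ≠ j → Disjoint (K i) (K j)) ∧ ∀ i, cyl x (K i) ⊆ A i}

def A1 : Set (Fin 2 → Bool) := {y | y 0 = false ∨ y 1 = true}
def B1 : Set (Fin 2 → Bool) := {y | y 0 = true ∨ y 1 = true}
def x1 : Fin 2 → Bool := ![false, true]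
def F (n : ℕ) : Set (Fin 2 → Bool) := if n = 0 ∨ n = 2 then A1 else if n = 1 then B1 else univ

lemma x1_mem : x1 ∈ box (box A1 B1) A1 := by
  refine ⟨{1}, {0}, by simp, fun y hy => ?_, fun y hy => Or.inl (hy 0 rfl)⟩
  have h1 : y 1 = true := hy 1 rfl
  cases h : y 0
  · exact ⟨{0}, {1}, by simp, fun z hz => Or.inl ((hz 0 rfl).trans h),
      fun z hz => Or.inr ((hz 1 rfl).trans h1)⟩
  · exact ⟨{1}, {0}, by simp, fun z hz => Or.inr ((hz 1 rfl).trans h1),
      fun z hz => Or.inl ((hz 0 rfl).trans h)⟩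

theorem result (r : ℕ) (hr : 3 ≤ r) : ∃ (S : Type) (_ : Nonempty S) (d : ℕ) (_ : 1 ≤ d)
    (A : ℕ → Set (Fin d → S)), sim r A ⊂ ⋂ t ∈ {t : Br | t.size = r}, t.ev A 0 := by
  refine ⟨Bool, inferInstance, 2, by norm_num, F, ?_, fun h => ?_⟩
  · rintro x ⟨K, hK, hx⟩
    refine mem_iInter₂.mpr fun t _ => ?_
    rw [← lab_E]
    refine Epriv F (fun n => if h : n < r then K ⟨n, h⟩ else ∅) (fun m n hmn => ?_) x
      (fun n => ?_) _ (lab_good t 0) (self_mem _ _)
    · split_ifs with h1 h2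
      · exact hK _ _ fun e => hmn (congrArg Fin.val e)
      all_goals simp
    · split_ifs with h1
      · exact hx ⟨n, h1⟩
      · rw [F, if_neg (by omega), if_neg (by omega)]; simp
  · have hx : x1 ∈ ⋂ t ∈ {t : Br | t.size = r}, t.ev F 0 := by
      refine mem_iInter₂.mpr fun t ht => ?_
      have ht' : t.size = r := ht
      rw [← lab_E]
      rcases lab_tri 0 1 2 (by norm_num) (by norm_num) t 0 le_rfl (by omega) with h | h
      · rw [E3 F 0 1 2 (fun n e1 e2 e3 => by simp [F, e1, e2, e3]) _ (lab_good t 0) h]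
        simpa [F] using x1_mem
      · rw [E3 F 1 2 0 (fun n e1 e2 e3 => by simp [F, e1, e2, e3]) _ (lab_good t 0) h,
          box_comm (F 1)]
        simpa [F] using x1_mem
    obtain ⟨K, hK, hc⟩ := h hx
    have ne : ∀ i : Fin r, (i : ℕ) < 3 → (K i).Nonempty := by
      intro i hi
      by_contra hn
      rw [not_nonempty_iff_eq_empty] at hn
      have h1 := hc i
      rw [hn] at h1
      have a1 := h1 (a := ![true, false]) (by simp [cyl])
      have a2 := h1 (a := ![false, false]) (by simp [cyl])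
      unfold F at a1 a2
      split_ifs at a1 a2
      · simp [A1] at a1
      · simp [B1] at a2
      · omega
    obtain ⟨a, ha⟩ := ne ⟨0, by omega⟩ (by simp)
    obtain ⟨b, hb⟩ := ne ⟨1, by omega⟩ (by simp)
    obtain ⟨c, hc⟩ := ne ⟨2, by omega⟩ (by simp)
    have n1 : a ≠ b := fun e => Set.disjoint_left.mp (hK _ _ (by simp)) ha (e ▸ hb)
    have n2 : a ≠ c := fun e => Set.disjoint_left.mp (hK _ _ (by simp)) ha (e ▸ hc)
    have n3 : b ≠ c := fun e => Set.disjoint_left.mp (hK _ _ (by simp)) hb (e ▸ hc)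
    omega

end Pool.Agent.Results.MP_3c3b39_pr.Strict
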